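import Pool.Agent.Helper73.RF.GoalsC

/-!
# Packet RF-NAT: naturality
-/

set_option autoImplicit false

open Finset

namespace Pool.Agent.Helper61.RF

open Pool.Agent.Helper73.RF

theorem nat : NatStmt := by
  intro 𝒜 ℬ _ _ _ _ E E' φ A θ hE
  have hFd : ∀ a f, φ (FR.Fd E A a f) = FR.Fd E' (fun a i => φ (A a i)) a (φ f) := by
    intro a f
    simp only [FR.Fd, map_sum, map_mul, hE]
  have hC : ∀ a b c, φ (FR.C E A θ a b c)
      = FR.C E' (fun a i => φ (A a i)) (fun i a => φ (θ i a)) a b c := by
    intro a b c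
    simp only [FR.C, map_sum, map_mul, map_add, map_sub, map_smul, hFd]
  have hG : ∀ a b c, φ (FR.Gam E A θ a b c)
      = FR.Gam E' (fun a i => φ (A a i)) (fun i a => φ (θ i a)) a b c := by
    intro a b c
    simp only [FR.Gam, map_add, map_sub, map_smul, hC]
  have ho : ∀ a k, φ (FR.om E A θ a k)
      = FR.om E' (fun a i => φ (A a i)) (fun i a => φ (θ i a)) a k := by
    intro a k
    simp only [FR.om, map_sum, map_smul, hG]
  have hO : ∀ c d k, φ (FR.Om E A θ c d k)
      = FR.Om E' (fun a i => φ (A a i)) (fun i a => φ (θ i a)) c d k := by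
    intro c d k
    simp only [FR.Om, map_sum, map_mul, map_add, map_sub, map_smul, hFd, ho, hC]
  have hN : ∀ l k, φ (FR.N E A θ l k)
      = FR.N E' (fun a i => φ (A a i)) (fun i a => φ (θ i a)) l k := by
    intro l k
    simp only [FR.N, map_sum, map_smul, hO]
  have hg : ∀ i j, φ (FR.g θ i j) = FR.g (fun i a => φ (θ i a)) i j := by
    intro i j
    simp only [FR.g, map_sum, map_mul]
  have hgi : ∀ i j, φ (FR.gi A i j) = FR.gi (fun a i => φ (A a i)) i j := by
    intro i j
    simp only [FR.gi, map_sum, map_mul]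
  have hKL : ∀ i j k, φ (FR.KL E θ i j k) = FR.KL E' (fun i a => φ (θ i a)) i j k := by
    intro i j k
    simp only [FR.KL, map_sum, map_add, map_sub, map_smul, hE, hg]
  have hKE : ∀ i j k, φ (FR.KE E A θ i j k)
      = FR.KE E' (fun a i => φ (A a i)) (fun i a => φ (θ i a)) i j k := by
    intro i j k
    simp only [FR.KE, map_sum, map_mul, hgi, hKL]
  have hRE : ∀ i j k l, φ (FR.RE E A θ i j k l)
      = FR.RE E' (fun a i => φ (A a i)) (fun i a => φ (θ i a)) i j k l := by
    intro i j k l
    simp only [FR.RE, map_sum, map_mul, map_add, map_sub, map_smul, hE, hKE]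
  exact ⟨ho, hN, hRE, hKE⟩

end Pool.Agent.Helper61.RF
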