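import Pool.Agent.Helper73.RF.GoalsA

/-!
# Packet RF-BOC: Bochner formulas
-/

set_option autoImplicit false

open Finset

namespace Pool.Agent.Helper61.RF

open Pool.Agent.Helper73.RF

lemma e000 : eps 0 0 0 = 0 := rfl
lemma e001 : eps 0 0 1 = 0 := rfl
lemma e002 : eps 0 0 2 = 0 := rfl
lemma e010 : eps 0 1 0 = 0 := rfl
lemma e011 : eps 0 1 1 = 0 := rfl
lemma e012 : eps 0 1 2 = 1 := rfl
lemma e020 : eps 0 2 0 = 0 := rfl
lemma e021 : eps 0 2 1 = -1 := rfl
lemma e022 : eps 0 2 2 = 0 := rfl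
lemma e100 : eps 1 0 0 = 0 := rfl
lemma e101 : eps 1 0 1 = 0 := rfl
lemma e102 : eps 1 0 2 = -1 := rfl
lemma e110 : eps 1 1 0 = 0 := rfl
lemma e111 : eps 1 1 1 = 0 := rfl
lemma e112 : eps 1 1 2 = 0 := rfl
lemma e120 : eps 1 2 0 = 1 := rfl
lemma e121 : eps 1 2 1 = 0 := rfl
lemma e122 : eps 1 2 2 = 0 := rfl
lemma e200 : eps 2 0 0 = 0 := rfl
lemma e201 : eps 2 0 1 = 1 := rfl
lemma e202 : eps 2 0 2 = 0 := rfl
lemma e210 : eps 2 1 0 = -1 := rfl
lemma e211 : eps 2 1 1 = 0 := rfl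
lemma e212 : eps 2 1 2 = 0 := rfl
lemma e220 : eps 2 2 0 = 0 := rfl
lemma e221 : eps 2 2 1 = 0 := rfl
lemma e222 : eps 2 2 2 = 0 := rfl

lemma forall3 {P : Fin 3 → Prop} (h0 : P 0) (h1 : P 1) (h2 : P 2) : ∀ a, P a := by
  intro a
  fin_cases a
  · exact h0
  · exact h1
  · exact h2

section ric
variable {T : ℝ} (F : FBD T)

lemma r00 : F.Ric 0 0 = F.M 1 1 + F.M 2 2 := by
  simp only [FBD.Ric, FBD.s, Fin.sum_univ_three, if_true]; ring
lemma r11 : F.Ric 1 1 = F.M 0 0 + F.M 2 2 := by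
  simp only [FBD.Ric, FBD.s, Fin.sum_univ_three, if_true]; ring
lemma r22 : F.Ric 2 2 = F.M 0 0 + F.M 1 1 := by
  simp only [FBD.Ric, FBD.s, Fin.sum_univ_three, if_true]; ring
lemma r01 : F.Ric 0 1 = - F.M 0 1 := by
  simp only [FBD.Ric, if_neg (show ¬ ((0 : Fin 3) = 1) by decide), zero_sub]
lemma r02 : F.Ric 0 2 = - F.M 0 2 := by
  simp only [FBD.Ric, if_neg (show ¬ ((0 : Fin 3) = 2) by decide), zero_sub]
lemma r10 : F.Ric 1 0 = - F.M 1 0 := by
  simp only [FBD.Ric, if_neg (show ¬ ((1 : Fin 3) = 0) by decide), zero_sub]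
lemma r12 : F.Ric 1 2 = - F.M 1 2 := by
  simp only [FBD.Ric, if_neg (show ¬ ((1 : Fin 3) = 2) by decide), zero_sub]
lemma r20 : F.Ric 2 0 = - F.M 2 0 := by
  simp only [FBD.Ric, if_neg (show ¬ ((2 : Fin 3) = 0) by decide), zero_sub]
lemma r21 : F.Ric 2 1 = - F.M 2 1 := by
  simp only [FBD.Ric, if_neg (show ¬ ((2 : Fin 3) = 1) by decide), zero_sub]

end ric

/-- the sums over `eps` -/
lemma boc1 {T : ℝ} (F : FBD T) (hF : F.Full) (f : F.B)
    (hsym : ∀ a b, F.H a (F.H b f) = F.H b (F.H a f))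
    (hV : ∀ k a, F.V k (F.H a f) = ∑ b, eps k a b • F.H b f) :
    ∀ a, F.Lap (F.H a f) = F.H a (F.Lap f) + ∑ b, F.Ric a b * F.H b f := by
  have hM := hF.Msymm
  have key : ∀ a c, F.H c (F.H c (F.H a f)) = F.H a (F.H c (F.H c f))
      + ∑ i, ∑ j, eps c a i • (F.M i j * ∑ b, eps j c b • F.H b f) := by
    intro a c
    have h1 := hF.HH c a (F.H c f)
    rw [hsym c a, ← sub_eq_iff_eq_add', h1]
    simp only [hV]
  refine forall3 ?_ ?_ ?_ <;>
  · unfold FBD.Lap
    simp only [key]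
    simp only [Fin.sum_univ_three, map_add, r00, r01, r02, r10, r11, r12, r20, r21, r22,
      e000, e001, e002, e010, e011, e012,
      e020, e021, e022, e100, e101, e102, e110, e111, e112, e120, e121, e122, e200, e201, e202,
      e210, e211, e212, e220, e221, e222, zero_smul, one_smul, neg_smul, hM 1 0, hM 2 0, hM 2 1]
    ring

theorem boc (hVIN : VinStmt) : BocStmt := by
  intro T F hF f hf
  obtain ⟨-, -, -, -, -, -, -, -, -, hLD, hsymA, hVA⟩ := hVIN T F hF
  have hsym := hsymA f hf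
  have hV := hVA f hf
  have h1 := boc1 F hF f hsym hV
  have hDH : F.IsRF → ∀ a, F.D (F.H a f) = F.H a (F.D f) + ∑ b, F.Ric a b * F.H b f := by
    intro hR a
    have h := hF.DHY a f
    have hR' : ∀ i j, F.S i j = F.Ric i j := hR
    have hf' : ∀ k, F.V k f = 0 := hf
    simp only [hf', mul_zero, Finset.sum_const_zero, add_zero, hR'] at h
    exact h
  refine ⟨h1, ?_, ?_⟩
  · intro hR a
    unfold FBD.Hop
    rw [hDH hR a, h1 a, map_sub]
    ring
  · intro hR
    have hR' : ∀ i j, F.S i j = F.Ric i j := hR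
    have hM := hF.Msymm
    have hB := hF.bianchi
    have hsymD := hsymA (F.D f) (hLD f hf).2.1
    have e1 : F.D (F.Lap f) = F.Lap (F.D f)
        + (2 : ℝ) • ∑ a, ∑ b, F.Ric a b * F.H a (F.H b f) := by
      have hstep : ∀ a, F.D (F.H a (F.H a f)) = F.H a (F.H a (F.D f))
          + ∑ b, (F.H b f * F.H a (F.Ric a b) + F.Ric a b * F.H a (F.H b f))
          + ∑ b, F.Ric a b * F.H b (F.H a f)
          + ∑ k, F.Y a k * ∑ b, eps k a b • F.H b f := by
        intro a
        have h := hF.DHY a (F.H a f)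
        rw [hDH hR a, map_add, map_sum] at h
        simp only [hR', hV, Derivation.leibniz, smul_eq_mul] at h
        rw [h]
        congr 3
        refine Finset.sum_congr rfl fun b _ => ?_
        ring
      have hb0 := hB 0
      have hb1 := hB 1
      have hb2 := hB 2
      simp only [Fin.sum_univ_three] at hb0 hb1 hb2
      unfold FBD.Lap
      rw [map_sum]
      simp only [hstep]
      have hY : ∀ a k, F.Y a k = ∑ b, ∑ c, eps k b c • F.H b (F.Ric a c) := by
        intro a k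
        unfold FBD.Y
        simp only [hR']
      simp only [hY]
      simp only [Fin.sum_univ_three, map_add, map_neg, r00, r01, r02, r10, r11, r12, r20, r21, r22,
        e000, e001, e002, e010, e011, e012,
        e020, e021, e022, e100, e101, e102, e110, e111, e112, e120, e121, e122, e200, e201, e202,
        e210, e211, e212, e220, e221, e222, zero_smul, one_smul, neg_smul, hM 1 0, hM 2 0, hM 2 1,
        hsym 1 0, hsym 2 0, hsym 2 1, two_smul]
      rw [hM 1 0, hM 2 0] at hb0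
      rw [hM 2 1] at hb1
      linear_combination (-2 * F.H 0 f) * hb0 + (-2 * F.H 1 f) * hb1 + (-2 * F.H 2 f) * hb2
    unfold FBD.Hop
    rw [e1]
    have e2 : F.Lap (F.D f - F.Lap f) = F.Lap (F.D f) - F.Lap (F.Lap f) := by
      unfold FBD.Lap
      simp only [Fin.sum_univ_three, map_sub, map_add]
      ring
    rw [e2]
    ring

end Pool.Agent.Helper61.RF
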