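import Pool.Agent.Helper64.RF.GoalsM

/-!
# Packet RF-COP: frames of matrix fields
-/

set_option autoImplicit false

open Quaternion MeasureTheory Finset

namespace Pool.Agent.Helper61.RF

open Pool.Agent.Helper64.RF
open Pool.Agent.Helper47.RF (MF IsMetric)

lemma toG_apply (gm : MF) (x : ℍ[ℝ]) (u v : Fin 3 → ℝ) :
    toG gm x u v = ∑ i, ∑ j, gm x i j * u i * v j := by
  unfold toG bil
  simp only [Fin.sum_univ_three, _root_.add_apply, _root_.smul_apply,
    ContinuousLinearMap.smulRight_apply, ContinuousLinearMap.proj_apply, smul_eq_mul]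
  ring

lemma lower_sum (g : Fin 3 → Fin 3 → ℝ) (R : Fin 3 → Fin 3 → Fin 3 → Fin 3 → ℝ)
    (a b c f : Fin 3 → ℝ) :
    ∑ m, ∑ l, g m l * (∑ i, ∑ j, ∑ k, R i j k m * a i * b j * c k) * f l
      = ∑ i, ∑ j, ∑ k, ∑ l, (∑ m, R i j k m * g m l) * a i * b j * c k * f l := by
  have h : ∀ m l, g m l * (∑ i, ∑ j, ∑ k, R i j k m * a i * b j * c k) * f l
      = ∑ i, ∑ j, ∑ k, (R i j k m * g m l) * a i * b j * c k * f l := by
    intro m l
    simp only [Finset.mul_sum, Finset.sum_mul]
    refine Finset.sum_congr rfl fun i _ => Finset.sum_congr rfl fun j _ =>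
      Finset.sum_congr rfl fun k _ => ?_
    ring
  simp only [h]
  have h2 : ∀ i j k l, (∑ m, R i j k m * g m l) * a i * b j * c k * f l
      = ∑ m, (R i j k m * g m l) * a i * b j * c k * f l := by
    intro i j k l
    simp only [Finset.sum_mul]
  simp only [h2]
  -- move the sums over m, l inside
  have h3 : ∀ (F : Fin 3 → Fin 3 → Fin 3 → Fin 3 → Fin 3 → ℝ),
      ∑ m, ∑ l, ∑ i, ∑ j, ∑ k, F m l i j k = ∑ i, ∑ j, ∑ k, ∑ l, ∑ m, F m l i j k := by
    intro F
    rw [Finset.sum_comm]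
    -- ∑ l, ∑ m, ∑ i, ∑ j, ∑ k
    have e1 : ∀ l, ∑ m, ∑ i, ∑ j, ∑ k, F m l i j k = ∑ i, ∑ j, ∑ k, ∑ m, F m l i j k := by
      intro l
      rw [Finset.sum_comm]
      refine Finset.sum_congr rfl fun i _ => ?_
      rw [Finset.sum_comm]
      refine Finset.sum_congr rfl fun j _ => ?_
      rw [Finset.sum_comm]
    simp only [e1]
    rw [Finset.sum_comm]
    refine Finset.sum_congr rfl fun i _ => ?_
    rw [Finset.sum_comm]
    refine Finset.sum_congr rfl fun j _ => ?_
    rw [Finset.sum_comm]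
  exact h3 (fun m l i j k => (R i j k m * g m l) * a i * b j * c k * f l)

theorem cop (lnk : LNK) : COP := by
  intro gm hg x hx A N hF
  obtain ⟨-, -, -, hR⟩ := lnk gm hg
  refine ⟨?_, ?_⟩
  · intro a b
    rw [toG_apply]
    exact hF.orth a b
  · intro c d b f
    rw [toG_apply]
    have h := hF.curv c d b f
    rw [← h]
    have h1 : ∀ m, Rm (toC gm) x (A c) (A d) (A b) m
        = ∑ i, ∑ j, ∑ k, Pool.Agent.Helper47.RF.Rup gm i j k m x * A c i * A d j * A b k :=
      fun m => hR x hx (A c) (A d) (A b) m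
    simp only [h1]
    exact lower_sum (fun m l => gm x m l)
      (fun i j k m => Pool.Agent.Helper47.RF.Rup gm i j k m x) (A c) (A d) (A b) (A f)

end Pool.Agent.Helper61.RF
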