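import Pool.Agent.Helper64.RF.GoalsM

/-!
# Packet RF-FFG: part F for matrix fields
-/

set_option autoImplicit false

open Quaternion MeasureTheory Finset

namespace Pool.Agent.Helper61.RF

open Pool.Agent.Helper64.RF
open Pool.Agent.Helper47.RF (MF IsMetric gvol)

lemma toG_eq_ip (gm : MF) (x : ℍ[ℝ]) (v : Fin 3 → ℝ) :
    toG gm x v v = Pool.Agent.Helper47.RF.ip gm x v v := by
  unfold toG bil Pool.Agent.Helper47.RF.ip
  simp only [Fin.sum_univ_three, _root_.add_apply, _root_.smul_apply,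
    ContinuousLinearMap.smulRight_apply, ContinuousLinearMap.proj_apply, smul_eq_mul]
  ring

lemma sq_eq_sum (v : Fin 3 → ℝ) : Pool.Agent.Helper64.RF.sq v = ∑ i, v i ^ 2 := by
  rw [Fin.sum_univ_three]; rfl

theorem ffg (lnk : LNK) (cop : COP) (crvb : CRVB) (fin : FIN) : FFG := by
  intro c0 C0 hc0 hC0
  obtain ⟨η', hη', hfin⟩ := fin c0 C0 hc0 hC0
  obtain ⟨K, hK, hcrv⟩ := crvb c0 C0 hc0 hC0
  refine ⟨η' / K, by positivity, ?_⟩
  intro gm hg hbd hfr
  obtain ⟨hmet, hlc, hgm, -⟩ := lnk gm hg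
  have hb : ∀ x : ℍ[ℝ], x ≠ 0 → ∀ v, c0 * Pool.Agent.Helper64.RF.sq v ≤ toG gm x v v
      ∧ toG gm x v v ≤ C0 * Pool.Agent.Helper64.RF.sq v := by
    intro x hx v
    rw [toG_eq_ip, sq_eq_sum]
    exact hbd x hx v
  have hB : Bds (toG gm) (toC gm) c0 C0 η' := by
    refine ⟨hmet, hlc, fun x hx v => (hb x hx v).1, fun x hx v => (hb x hx v).2, ?_⟩
    intro x hx u v z
    obtain ⟨A, N, hF, hN⟩ := hfr x hx
    obtain ⟨hO, hC⟩ := cop gm hg x hx A N hF
    have h := hcrv (toG gm) (toC gm) hmet hlc hb x hx A N (η' / K) (by positivity) hO hC hN u v z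
    have e : K * (η' / K) = η' := by field_simp
    rw [e] at h
    exact h
  have h := hfin (toG gm) (toC gm) hB
  constructor
  · unfold gvol
    have e : ∀ x, Real.sqrt (gmat (toG gm) x).det = Real.sqrt (gm x).det := by
      intro x; rw [hgm x]
    simp only [e] at h
    linarith
  · apply ENNReal.toReal_pos
    · exact (Metric.measure_ball_pos volume (0 : ℍ[ℝ]) one_pos).ne'
    · exact measure_ball_lt_top.ne

end Pool.Agent.Helper61.RF
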