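import Pool.Agent.Helper73.RF.GoalsB

/-!
# Packet RF-HEA: the heat equation along the flow
-/

set_option autoImplicit false

open Finset

namespace Pool.Agent.Helper61.RF

open Pool.Agent.Helper73.RF

theorem hea (hMP1 : Mp1Stmt) (hEVS : EvsStmt) (hBIA : BiaStmt) (hPQ : PqStmt)
    (hPRD : PrdStmt) : HeaStmt := by
  intro T F hF hR κ A0 hκ hpin hs u hu hDu hini hbd
  have hB := hF.toBase
  obtain ⟨-, -, -, -, -, -, hheat⟩ := hEVS T F hF hR
  have hHu : F.Hop u = 0 := by unfold FBD.Hop; rw [hDu, sub_self]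
  obtain ⟨hg, hL⟩ := hheat u hu hHu
  -- (i)
  have part1 : ∀ z (t : TI T), F.ev z t (F.gg u u) ≤ 1 := by
    intro z t
    have h := hMP1 T F hB (algebraMap ℝ F.B 1 - F.gg u u) 0 t 0 1 le_rfl t.2.2 le_rfl one_pos ?_ ?_
      z t t.2.1 le_rfl
    · rw [map_sub, AlgHom.commutes] at h
      simp only [Algebra.algebraMap_self, RingHom.id_apply] at h
      linarith
    · intro ε hε
      obtain ⟨t0, ht0, -, h0⟩ := hini ε hε
      refine ⟨t0, ht0, fun z t _ ht => ?_⟩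
      have := h0 z t (by linarith)
      rw [map_neg] at this
      rw [map_sub, AlgHom.commutes]
      simp only [Algebra.algebraMap_self, RingHom.id_apply]
      linarith
    · intro z t _ _ _ _ _
      rw [zero_mul]
      have h1 := (hPRD T F (algebraMap ℝ F.B 1) (F.gg u u)).2.2.1
      have h2 := ((hPRD T F (algebraMap ℝ F.B 1) (F.gg u u)).2.2.2.1 1).2
      rw [h1, h2, hg, zero_sub, neg_neg, map_smul, smul_eq_mul]
      have h3 := ((hBIA T F hF hR z t).2.2.2.2.2.2.2.2 u).2.1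
      linarith
  intro z t
  refine ⟨part1 z t, ?_⟩
  have hA0 : 0 ≤ A0 := by
    obtain ⟨h1, h2⟩ := hs z t
    exact (mul_nonneg t.2.1.le h1).trans h2
  suffices hsuf : ∀ Bc : ℝ, Bc = 2 + 5 * A0 → t * F.ev z t (F.Lap u) ^ 2 ≤ Bc from hsuf _ rfl
  intro Bc hBc
  have hBc0 : 0 ≤ Bc := by rw [hBc]; linarith
  set v : F.B := F.Lap u with hv
  have h := hMP1 T F hB (algebraMap ℝ F.B Bc - (F.tt * v ^ 2 + Bc • F.gg u u)) 0 t 0 1 le_rfl
    t.2.2 le_rfl one_pos ?_ ?_ z t t.2.1 le_rfl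
  · rw [map_sub, AlgHom.commutes, map_add, map_mul, map_pow, map_smul, hB.tt_ev] at h
    simp only [Algebra.algebraMap_self, RingHom.id_apply, smul_eq_mul] at h
    have h3 := ((hBIA T F hF hR z t).2.2.2.2.2.2.2.2 u).1
    have h4 : 0 ≤ Bc * F.ev z t (F.gg u u) := mul_nonneg hBc0 h3
    linarith
  · intro ε hε
    obtain ⟨C, t0, ht0, -, h0⟩ := hbd
    refine ⟨min t0 (ε / (C ^ 2 + 1)), lt_min ht0 (by positivity), fun z t _ ht => ?_⟩
    have ht1 : (t : ℝ) < t0 := by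
      have := min_le_left t0 (ε / (C ^ 2 + 1)); linarith
    have ht2 : (t : ℝ) < ε / (C ^ 2 + 1) := by
      have := min_le_right t0 (ε / (C ^ 2 + 1)); linarith
    have hvC := h0 z t ht1
    rw [map_sub, AlgHom.commutes, map_add, map_mul, map_pow, map_smul, hB.tt_ev]
    simp only [Algebra.algebraMap_self, RingHom.id_apply, smul_eq_mul]
    have h4 : Bc * F.ev z t (F.gg u u) ≤ Bc * 1 := mul_le_mul_of_nonneg_left (part1 z t) hBc0
    have h5 : F.ev z t v ^ 2 ≤ C ^ 2 := by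
      rw [← sq_abs (F.ev z t v)]
      exact pow_le_pow_left₀ (abs_nonneg _) hvC 2
    have h6 : (t : ℝ) * F.ev z t v ^ 2 ≤ ε := by
      have ht00 : (0 : ℝ) < t := t.2.1
      rw [lt_div_iff₀ (by positivity)] at ht2
      nlinarith
    linarith
  · intro z t _ _ _ _ _
    rw [zero_mul]
    obtain ⟨-, hPadd, -, -, -⟩ := hPRD T F (F.tt * v ^ 2) (Bc • F.gg u u)
    have hPsub := (hPRD T F (algebraMap ℝ F.B Bc) (F.tt * v ^ 2 + Bc • F.gg u u)).2.2.1
    have hPc := ((hPRD T F (algebraMap ℝ F.B Bc) (F.gg u u)).2.2.2.1 Bc).2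
    have hPs := ((hPRD T F (F.gg u u) (F.gg u u)).2.2.2.1 Bc).1
    have hPm := (hPRD T F F.tt (v ^ 2)).1
    have hPq := (hPRD T F v v).2.2.2.2
    have hHtt : F.Hop F.tt = 1 := by
      unfold FBD.Hop FBD.Lap
      simp only [hB.tt_D, hB.tt_H, map_zero, Finset.sum_const_zero, sub_zero]
    have hgtt : F.gg F.tt (v ^ 2) = 0 := by
      unfold FBD.gg
      simp only [hB.tt_H, zero_mul, Finset.sum_const_zero]
    rw [hPsub, hPc, hPadd, hPm, hPq, hPs, hL, hg, hHtt, hgtt]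
    simp only [zero_sub, smul_zero, sub_zero, mul_one, map_neg, map_add, map_mul, map_sub,
      map_smul, map_pow, smul_eq_mul, hB.tt_ev]
    obtain ⟨-, -, -, -, -, -, -, -, hf⟩ := hBIA T F hF hR z t
    obtain ⟨-, hh2, -, hLap, hRic⟩ := hf u
    obtain ⟨hgvv, -⟩ := hf v
    obtain ⟨hn2, -⟩ := hPQ T F hF κ hκ.le hpin (fun z t => (hs z t).1) z t
    obtain ⟨hs0, hts⟩ := hs z t
    rw [← hv] at hLap
    have hRic' : F.ev z t (∑ a, ∑ b, F.Ric a b * F.H a (F.H b u)) ^ 2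
      ≤ (F.ev z t F.s ^ 2 + F.ev z t F.n2) * F.ev z t (F.h2 u) := hRic
    generalize F.ev z t (∑ a, ∑ b, F.Ric a b * F.H a (F.H b u)) = R at hRic' ⊢
    generalize F.ev z t v = x at hLap ⊢
    generalize F.ev z t (F.gg v v) = G at hgvv ⊢
    generalize F.ev z t (F.h2 u) = h2 at hh2 hLap hRic' ⊢
    generalize F.ev z t F.s = s at hn2 hs0 hts hRic' ⊢
    generalize F.ev z t F.n2 = n2 at hn2 hRic' ⊢
    have ht0 : (0 : ℝ) < t := t.2.1
    -- |4 t x R| ≤ 10 A0 h2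
    have hR2 : R ^ 2 ≤ 2 * s ^ 2 * h2 := by nlinarith
    have h7 : (4 * t * (x * R)) ^ 2 ≤ (10 * A0 * h2) ^ 2 := by
      have e1 : x ^ 2 * R ^ 2 ≤ (3 * h2) * (2 * s ^ 2 * h2) :=
        mul_le_mul hLap hR2 (sq_nonneg _) (by positivity)
      have e2 : ((t : ℝ) * s) ^ 2 ≤ A0 ^ 2 := pow_le_pow_left₀ (mul_nonneg ht0.le hs0) hts 2
      have e3 : 16 * (t : ℝ) ^ 2 * (x ^ 2 * R ^ 2) ≤ 16 * (t : ℝ) ^ 2 * ((3 * h2) * (2 * s ^ 2 * h2)) :=
        mul_le_mul_of_nonneg_left e1 (by positivity)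
      have e4 : 96 * h2 ^ 2 * ((t : ℝ) * s) ^ 2 ≤ 96 * h2 ^ 2 * A0 ^ 2 :=
        mul_le_mul_of_nonneg_left e2 (by positivity)
      have e5 : 0 ≤ h2 ^ 2 * A0 ^ 2 := by positivity
      nlinarith
    have h8 : 4 * t * (x * R) ≤ 10 * A0 * h2 := (abs_le_of_sq_le_sq' h7 (by positivity)).2
    have h9 : 0 ≤ (t : ℝ) * G := mul_nonneg ht0.le hgvv
    nlinarith

end Pool.Agent.Helper61.RF
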