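import Pool.Agent.Helper64.RF.GoalsL

/-!
# Packet RF-LKD: distance is at most the square root of the energy
-/

set_option autoImplicit false

open Quaternion MeasureTheory

namespace Pool.Agent.Helper61.RF

open Pool.Agent.Helper64.RF
open Pool.Agent.Helper47.RF (MF IsMetric gdist)

/-- clamp to the unit interval -/
noncomputable def clm (t : ℝ) : ℝ := ((Set.projIcc (0 : ℝ) 1 zero_le_one t : Set.Icc (0 : ℝ) 1) : ℝ)

lemma clm_mem (t : ℝ) : clm t ∈ Set.Icc (0 : ℝ) 1 :=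
  (Set.projIcc (0 : ℝ) 1 zero_le_one t : Set.Icc (0 : ℝ) 1).2

lemma clm_of_mem {t : ℝ} (h : t ∈ Set.Icc (0 : ℝ) 1) : clm t = t := by
  unfold clm
  rw [Set.projIcc_of_mem zero_le_one h]

lemma clm_lip (s t : ℝ) : dist (clm s) (clm t) ≤ dist s t := by
  have h := (LipschitzWith.projIcc (zero_le_one : (0 : ℝ) ≤ 1)).dist_le_mul s t
  simpa [clm, Subtype.dist_eq] using h

/-- normalised curve -/
noncomputable def nc (c : ℝ → ℍ[ℝ]) (t : ℝ) : ℍ[ℝ] := ‖c t‖⁻¹ • c t

lemma nc_norm {c : ℝ → ℍ[ℝ]} (hc : C1 c) (t : ℝ) : ‖nc c t‖ = 1 := by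
  unfold nc
  rw [norm_smul, norm_inv, norm_norm, inv_mul_cancel₀ (norm_ne_zero_iff.mpr (hc.2 t))]

lemma nc_contDiff {c : ℝ → ℍ[ℝ]} (hc : C1 c) : ContDiff ℝ 1 (nc c) := by
  have h1 : ContDiff ℝ 1 (fun t => ‖c t‖) := hc.1.norm ℝ hc.2
  exact (h1.inv (fun t => norm_ne_zero_iff.mpr (hc.2 t))).smul hc.1

lemma nc_lip {c : ℝ → ℍ[ℝ]} (hc : C1 c) : ∃ K, LipschitzWith K (fun t => nc c (clm t)) := by
  have hcd := nc_contDiff hc
  have hcont : Continuous (deriv (nc c)) := hcd.continuous_deriv le_rfl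
  obtain ⟨K, hK⟩ := (isCompact_Icc (a := (0 : ℝ)) (b := 1)).exists_bound_of_continuousOn
    hcont.continuousOn
  have hK0 : 0 ≤ K := (norm_nonneg _).trans (hK 0 (by simp))
  refine ⟨⟨K, hK0⟩, LipschitzWith.of_dist_le_mul fun s t => ?_⟩
  have h1 := (convex_Icc (0 : ℝ) 1).norm_image_sub_le_of_norm_deriv_le (f := nc c) (C := K)
    (fun x _ => (hcd.differentiable one_ne_zero).differentiableAt) hK (clm_mem t) (clm_mem s)
  rw [← dist_eq_norm, ← dist_eq_norm] at h1
  calc dist (nc c (clm s)) (nc c (clm t)) ≤ K * dist (clm s) (clm t) := h1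
    _ ≤ K * dist s t := mul_le_mul_of_nonneg_left (clm_lip s t) hK0

lemma fr_eq (x w : ℍ[ℝ]) : Pool.Agent.Helper47.RF.fr x w = Pool.Agent.Helper64.RF.im (star x * w) := rfl

lemma im_star_mul (c c' : ℍ[ℝ]) (hc : c ≠ 0) (a : ℝ) :
    Pool.Agent.Helper64.RF.im (star (‖c‖⁻¹ • c) * (a • c + ‖c‖⁻¹ • c'))
      = Pool.Agent.Helper64.RF.im (c⁻¹ * c') := by
  have h1 : star (‖c‖⁻¹ • c) = ‖c‖⁻¹ • star c := by
    rw [Quaternion.star_smul]
  have hn : ‖c‖ ≠ 0 := norm_ne_zero_iff.mpr hc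
  have h2 : c⁻¹ = (‖c‖⁻¹ * ‖c‖⁻¹) • star c := by
    rw [Quaternion.inv_def, Quaternion.normSq_eq_norm_mul_self, mul_inv]
  have h3 : star c * c = ((normSq c : ℝ) : ℍ[ℝ]) := Quaternion.star_mul_self c
  rw [h1, mul_add, im_add, smul_mul_smul_comm, h3, smul_mul_smul_comm, im_smul, im_coe, smul_zero,
    zero_add, h2, smul_mul_assoc]

lemma hasDeriv_nc {c : ℝ → ℍ[ℝ]} (hc : C1 c) (t : ℝ) :
    ∃ a : ℝ, HasDerivAt (nc c) (a • c t + ‖c t‖⁻¹ • deriv c t) t := by
  have h1 : ContDiff ℝ 1 (fun t => ‖c t‖) := hc.1.norm ℝ hc.2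
  have h2 : ContDiff ℝ 1 (fun t => ‖c t‖⁻¹) := h1.inv (fun t => norm_ne_zero_iff.mpr (hc.2 t))
  have h3 : HasDerivAt (fun t => ‖c t‖⁻¹) (deriv (fun t => ‖c t‖⁻¹) t) t :=
    (h2.differentiable one_ne_zero).differentiableAt.hasDerivAt
  have h4 : HasDerivAt c (deriv c t) t :=
    (hc.1.differentiable one_ne_zero).differentiableAt.hasDerivAt
  refine ⟨deriv (fun t => ‖c t‖⁻¹) t, ?_⟩
  have h5 := h3.smul h4
  rw [add_comm] at h5
  exact h5

lemma ip_eq (gm : MF) (x : ℍ[ℝ]) (v : Fin 3 → ℝ) :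
    Pool.Agent.Helper47.RF.ip gm x v v = toG gm x v v := by
  unfold Pool.Agent.Helper47.RF.ip toG bil
  simp only [Fin.sum_univ_three, _root_.add_apply, _root_.smul_apply,
    ContinuousLinearMap.smulRight_apply, ContinuousLinearMap.proj_apply, smul_eq_mul]
  ring

lemma toG_hom {gm : MF} (hg : IsMetric gm) (r : ℝ) (hr : 0 < r) (x : ℍ[ℝ]) :
    toG gm (r • x) = toG gm x := by
  unfold toG
  congr 1
  ext i j
  exact (hg.sm i j).hom r x hr

lemma toG_nonneg {gm : MF} (hg : IsMetric gm) (x : ℍ[ℝ]) (v : Fin 3 → ℝ) :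
    0 ≤ toG gm x v v := by
  rw [← ip_eq]
  have h := (hg.pos x).posSemidef.dotProduct_mulVec_nonneg v
  unfold Pool.Agent.Helper47.RF.ip
  simp only [dotProduct, Matrix.mulVec, Fin.sum_univ_three, Pi.star_apply, star_trivial] at h ⊢
  linarith

lemma toG_cont {gm : MF} (hg : IsMetric gm) {c : ℝ → ℍ[ℝ]} (hc : C1 c) :
    Continuous (fun t => toG gm (c t) (vel c t) (vel c t)) := by
  have hcc : Continuous c := hc.1.continuous
  have hd : Continuous (deriv c) := hc.1.continuous_deriv le_rfl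
  have hinv : Continuous (fun t => (c t)⁻¹) := hcc.inv₀ hc.2
  have hv : Continuous (vel c) := by
    have : vel c = fun t => imL ((c t)⁻¹ * deriv c t) := rfl
    rw [this]
    exact imL.continuous.comp (hinv.mul hd)
  have hvi : ∀ i, Continuous (fun t => vel c t i) := fun i => (continuous_apply i).comp hv
  have hgc : ∀ i j, Continuous (fun t => gm (c t) i j) := by
    intro i j
    have h1 : ContinuousOn (fun x => gm x i j) {0}ᶜ := (hg.sm i j).cd.continuousOn
    exact h1.comp_continuous hcc (fun t => hc.2 t)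
  have : (fun t => toG gm (c t) (vel c t) (vel c t))
      = fun t => ∑ i, ∑ j, gm (c t) i j * vel c t i * vel c t j := by
    funext t
    rw [← ip_eq]
    rfl
  rw [this]
  refine continuous_finsetSum _ fun i _ => continuous_finsetSum _ fun j _ => ?_
  exact ((hgc i j).mul (hvi i)).mul (hvi j)

/-- Cauchy–Schwarz -/
lemma int_sqrt_le (f : ℝ → ℝ) (hf : Continuous f) (h0 : ∀ t, 0 ≤ f t) :
    ∫ t in (0:ℝ)..1, Real.sqrt (f t) ≤ Real.sqrt (∫ t in (0:ℝ)..1, f t) := by
  set m : ℝ := ∫ t in (0:ℝ)..1, Real.sqrt (f t) with hm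
  have hs : Continuous (fun t => Real.sqrt (f t)) := hf.sqrt
  apply Real.le_sqrt_of_sq_le
  have h1 : 0 ≤ ∫ t in (0:ℝ)..1, (Real.sqrt (f t) - m) ^ 2 :=
    intervalIntegral.integral_nonneg zero_le_one (fun t _ => sq_nonneg _)
  have h2 : ∀ t, (Real.sqrt (f t) - m) ^ 2 = f t - 2 * m * Real.sqrt (f t) + m ^ 2 := by
    intro t
    have := Real.sq_sqrt (h0 t)
    ring_nf
    rw [this]
    ring
  simp only [h2] at h1
  have i1 : IntervalIntegrable (fun t => 2 * m * Real.sqrt (f t)) volume 0 1 :=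
    (continuous_const.mul hs).intervalIntegrable _ _
  have i2 : IntervalIntegrable f volume 0 1 := hf.intervalIntegrable _ _
  have i3 : IntervalIntegrable (fun _ : ℝ => m ^ 2) volume 0 1 :=
    continuous_const.intervalIntegrable _ _
  rw [intervalIntegral.integral_add (i2.sub i1) i3, intervalIntegral.integral_sub i2 i1,
    intervalIntegral.integral_const_mul, intervalIntegral.integral_const, ← hm] at h1
  simp only [sub_zero, one_smul] at h1
  nlinarith

theorem lkd : LKD := by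
  intro gm hg c hc h0 h1
  set d : ℝ → ℍ[ℝ] := fun t => nc c (clm t) with hd
  have hd0 : d 0 = c 0 := by
    rw [hd]
    simp only
    rw [clm_of_mem (by simp)]
    unfold nc
    rw [h0]; simp
  have hd1 : d 1 = c 1 := by
    rw [hd]
    simp only
    rw [clm_of_mem (by simp)]
    unfold nc
    rw [h1]; simp
  have hJ : Pool.Agent.Helper47.RF.Joins d (c 0) (c 1) :=
    ⟨nc_lip hc, fun t => nc_norm hc _, hd0, hd1⟩
  have hlen : ∀ e, 0 ≤ Pool.Agent.Helper47.RF.glen gm e := fun e =>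
    intervalIntegral.integral_nonneg zero_le_one (fun t _ => Real.sqrt_nonneg _)
  have hle : gdist gm (c 0) (c 1) ≤ Pool.Agent.Helper47.RF.glen gm d := by
    apply csInf_le
    · refine ⟨0, ?_⟩
      rintro r ⟨e, -, rfl⟩
      exact hlen e
    · exact ⟨d, hJ, rfl⟩
  refine hle.trans ?_
  have hspeed : ∀ t ∈ Set.Ioo (0 : ℝ) 1, Pool.Agent.Helper47.RF.speed gm d t
      = Real.sqrt (toG gm (c t) (vel c t) (vel c t)) := by
    intro t ht
    have hdt : d =ᶠ[nhds t] nc c := by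
      filter_upwards [Ioo_mem_nhds ht.1 ht.2] with s hs
      show nc c (clm s) = nc c s
      rw [clm_of_mem ⟨hs.1.le, hs.2.le⟩]
    have hder : deriv d t = deriv (nc c) t := hdt.deriv_eq
    have hval : d t = nc c t := hdt.self_of_nhds
    obtain ⟨a, ha⟩ := hasDeriv_nc hc t
    unfold Pool.Agent.Helper47.RF.speed
    rw [hder, hval, ha.deriv, fr_eq, ip_eq]
    unfold nc
    rw [im_star_mul _ _ (hc.2 t), toG_hom hg _ (inv_pos.mpr (norm_pos_iff.mpr (hc.2 t)))]
    rfl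
  have hglen : Pool.Agent.Helper47.RF.glen gm d
      = ∫ t in (0:ℝ)..1, Real.sqrt (toG gm (c t) (vel c t) (vel c t)) := by
    unfold Pool.Agent.Helper47.RF.glen
    rw [intervalIntegral.integral_of_le zero_le_one, intervalIntegral.integral_of_le zero_le_one,
      MeasureTheory.integral_Ioc_eq_integral_Ioo, MeasureTheory.integral_Ioc_eq_integral_Ioo]
    exact MeasureTheory.setIntegral_congr_fun measurableSet_Ioo hspeed
  rw [hglen]
  exact int_sqrt_le _ (toG_cont hg hc) (fun t => toG_nonneg hg _ _)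

end Pool.Agent.Helper61.RF
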