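import Pool.Agent.Helper73.RF.GoalsA

/-!
# Packet RF-PRD: product rule of the heat operator
-/

set_option autoImplicit false

open Finset

namespace Pool.Agent.Helper61.RF

open Pool.Agent.Helper73.RF

lemma lap_mul {T : ℝ} (F : FBD T) (f g : F.B) :
    F.Lap (f * g) = f * F.Lap g + g * F.Lap f + (2 : ℝ) • F.gg f g := by
  unfold FBD.Lap FBD.gg
  simp only [Fin.sum_univ_three, Derivation.leibniz, map_add, smul_eq_mul, two_smul]
  ring

lemma lap_add {T : ℝ} (F : FBD T) (f g : F.B) : F.Lap (f + g) = F.Lap f + F.Lap g := by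
  unfold FBD.Lap
  simp only [Fin.sum_univ_three, map_add]
  ring

lemma lap_sub {T : ℝ} (F : FBD T) (f g : F.B) : F.Lap (f - g) = F.Lap f - F.Lap g := by
  unfold FBD.Lap
  simp only [Fin.sum_univ_three, map_sub]
  ring

lemma lap_smul {T : ℝ} (F : FBD T) (c : ℝ) (f : F.B) : F.Lap (c • f) = c • F.Lap f := by
  unfold FBD.Lap
  simp only [Fin.sum_univ_three, Derivation.map_smul, smul_add]

lemma hop_mul {T : ℝ} (F : FBD T) (f g : F.B) :
    F.Hop (f * g) = f * F.Hop g + g * F.Hop f - (2 : ℝ) • F.gg f g := by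
  unfold FBD.Hop
  rw [lap_mul, Derivation.leibniz, smul_eq_mul, smul_eq_mul]
  ring

theorem prd : PrdStmt := by
  intro T F f g
  refine ⟨hop_mul F f g, ?_, ?_, ?_, ?_⟩
  · unfold FBD.Hop
    rw [lap_add, map_add]
    ring
  · unfold FBD.Hop
    rw [lap_sub, map_sub]
    ring
  · intro c
    constructor
    · unfold FBD.Hop
      rw [lap_smul, Derivation.map_smul, smul_sub]
    · unfold FBD.Hop FBD.Lap
      simp
  · rw [sq, hop_mul, two_smul ℝ (f * F.Hop f)]

end Pool.Agent.Helper61.RF
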